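import Pool.Agent.T6.H16.RW.E6
import Pool.Agent.T6.H16.RW.F1

set_option autoImplicit false

/-! # The strong monodromy conjecture for products of powers of real diagonal polynomials

Let `a_1, ..., a_n ≥ 2` and `f = ∏ h, (c_{h,1} x_1 ^ a_1 + ... + c_{h,n} x_n ^ a_n) ^ m_h`, with real
`c_{h,i}` (`diagProd`); if all `a_i = 2` this is a product of powers of quadratic forms which are
diagonal in the same basis. The hypersurface is the pull-back of the arrangement of the hyperplanes
`c_h = 0` under the map `y_i = x_i ^ a_i`.

Let `B` be the arrangement of the hyperplanes `c_h = 0` and `y_i = 0` (`bt c` is the family of these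
linear forms), and let `W` be its minimal wonderful model (De Concini and Procesi): its components
`E_G` belong to the irreducible flats `G` of `B` (`IsIrr`; we describe a flat by the space `G` of the
linear forms which vanish on it). Let `X` be the normalization of the fibre product of `W` and `ℂ ^ n`
over the map `y_i = x_i ^ a_i`; it is a toroidal (abelian quotient) embedded resolution of `f`. Over
`E_G` the multiplicity of `f` is `N_G = e m(G)`, and `ν_G = e (rank G - c(G)) + ∑ e / a_i`, the sum over
the `c(G)` coordinates `y_i ∈ G` (`cc`), where `m(G)` is the sum of the `m_h` with `c_h ∈ G` (`mu`), and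
`e` is the least common multiple of the `a_i` with `y_i ∈ G` (`el`, `nuG`, `nG`). A toric resolution of
`X` gives an embedded resolution, and the local topological zeta function of `f` is
`∑ χ_S ∏_{G ∈ S} 1 / (N_G s + ν_G)`, the sum over the sets `S` of flats, with `χ_S` the Euler
characteristic of the stratum over the origin, times the order of the local group.

A flat `S` of `G` is heavy if `N_S / ν_S > N_G / ν_G` (`HeavyW`; `nuA` is the weighted rank
`ν_G / e`, times the product of all `a_i`). `GoodW c m a G x₀` says: no form `c_h` or `y_i` in `G`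
vanishes at `x₀`, and for every point `x` of the closure of the chamber of `x₀` (of the arrangement of
the forms in `G`) with `x` not in the centre of `G`, the flat of the forms in `G` which vanish at `x` is
not heavy. `CommonW` says that all heavy flats of `G` contain the same form `c_h` or `y_i` of `G`. -/

namespace Pool.Agent.Results.MP_6163c8_ag.RealDiagonalForms

open Pool.Agent.H628R4.TP Pool.Agent.TH192.DT Pool.Agent.T6.H16.RA Pool.Agent.T6.H16.RW

/-- **Products of powers of real diagonal polynomials with exponents `a_i ≥ 2`.** (1) If every `G i`,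
`i ∈ I`, has a chamber whose closure meets no heavy flat outside of the centre of `G i` (`GoodW`), then
every pole `s₀` of the local topological zeta function with the components `E_{G i}`, `i ∈ I` (and
arbitrary integers `χ`) is a root of every `b` which satisfies a functional equation
`b(s) f ^ s = P(s) f ^ (s + 1)`, where `P(s)` is a differential operator with formal power series
coefficients, in particular of the local Bernstein-Sato polynomial of `f` at the origin. (2) Such a
chamber exists if all heavy flats of `G` contain a common form (`CommonW`). (3) This holds for the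
irreducible flats `G` of rank at most two. If `n ≤ 3`, it holds for all irreducible flats if at most one
of the coordinates `y_i` is a multiple of one of the forms `c_h`. If the `c_h` are pairwise
non-proportional and not multiples of the `y_i`, and all `m_h = 1` or `ν_G ≤ 2 e` (which is always the
case for the flat of rank four if `n = 4`), it holds for the irreducible flats of rank at most three, and
for all irreducible flats if `n = 4` and `1 / a_l ≤ 1 / a_i + 1 / a_j` for different `i, j, l` (for
example equal exponents). It holds for all irreducible flats, in any number of variables, if the `c_h`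
lie in a pencil (span a space of dimension at most two), are pairwise
non-proportional, and `m_h (1 + ∑ 1 / a_i) ≤ ∑ m_{h'}` for all `h`. So every pole is a root for all
products of powers of real diagonal polynomials in three variables (at most one variable may occur as
a factor, with an exponent divisible by `a_i`), for the products of pairwise different real diagonal
polynomials in four variables with such exponents, and for the products of `d` pairwise different members
of a pencil of real diagonal polynomials with `∑ 1 / a_i ≤ d - 1`. -/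
theorem result :
    (∀ {n : ℕ} {ι I : Type} [Fintype ι] [Fintype I] (c : ι → Fin n → ℝ) (m : ι → ℕ)
      (a : Fin n → ℕ) (_ : ∀ i, 2 ≤ a i) (_ : ∀ h, c h ≠ 0) (_ : ∀ h, 0 < m h)
      (G : I → Submodule ℝ (Fin n → ℝ))
      (_ : ∀ i, IsIrr (bt c) (G i) ∧ ∃ x₀, GoodW c m a (G i) x₀) (χ : Finset I → ℤ) (s₀ : ℂ)
      (_ : (topZ (fun i => nuG a (G i)) (fun i => nG c m a (G i)) χ).denom.eval s₀ = 0)
      (b : Polynomial ℂ) (_ : IsLocalBFunction (diagProd c m a) b), b.eval s₀ = 0) ∧
    (∀ {n : ℕ} {ι : Type} [Fintype ι] (c : ι → Fin n → ℝ) (m : ι → ℕ) (a : Fin n → ℕ)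
      (_ : ∀ h, c h ≠ 0) (G : Submodule ℝ (Fin n → ℝ)) (_ : IsIrr (bt c) G)
      (_ : CommonW c m a G), ∃ x₀, GoodW c m a G x₀) ∧
    ∀ {n : ℕ} {ι : Type} [Fintype ι] (c : ι → Fin n → ℝ) (m : ι → ℕ) (a : Fin n → ℕ)
      (_ : ∀ i, 2 ≤ a i) (_ : ∀ h, c h ≠ 0) (G : Submodule ℝ (Fin n → ℝ)) (_ : IsIrr (bt c) G)
      (_ : Module.finrank ℝ G ≤ 2 ∨
        (n ≤ 3 ∧ ∀ (h h' : ι) (i i' : Fin n) (t t' : ℝ), c h = t • Pi.single i 1 →
          c h' = t' • Pi.single i' 1 → i = i') ∨
        ((∀ (h h' : ι) (t : ℝ), c h' = t • c h → h' = h) ∧
          (((∀ (h : ι) (i : Fin n) (t : ℝ), c h ≠ t • Pi.single i 1) ∧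
            ((∀ h, m h = 1) ∨ nuG a G ≤ 2 * el a G) ∧ (Module.finrank ℝ G ≤ 3 ∨ (n = 4 ∧
            ∀ i j l : Fin n, i ≠ j → j ≠ l → i ≠ l → (1 : ℚ) / a l ≤ 1 / a i + 1 / a j))) ∨
          (Module.finrank ℝ (Submodule.span ℝ (Set.range c)) ≤ 2 ∧ (∀ h, 0 < m h) ∧
            ∀ h, (m h : ℚ) * (1 + ∑ i, (1 : ℚ) / a i) ≤ ∑ h', (m h' : ℚ))))), CommonW c m a G := by
  refine ⟨?_, ?_, ?_⟩
  · intro n ι I _ _ c m a ha hc hm G hG χ s₀ hs b hb
    exact poles_diag ha (fun i => lt_of_lt_of_le Nat.zero_lt_two (ha i)) hc hm G hG χ s₀ hs b hb
  · intro n ι _ c m a hc G hI hC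
    classical
    exact goodW_of_common hc hI hC
  · intro n ι _ c m a ha hc G hI h
    have ha0 : ∀ i, 0 < a i := fun i => lt_of_lt_of_le Nat.zero_lt_two (ha i)
    rcases h with h | ⟨hn, hone⟩ | ⟨hred, ⟨hco, hm, hn⟩ | ⟨hL, hm, hmn⟩⟩
    · exact commonW ha0 hI (nested_two h hc)
    · exact common_le_three' ha hc hone hn hI
    · have h123 : Module.finrank ℝ G ≤ 3 → CommonW c m a G := by
        intro h3
        rcases hm with hm | hm
        · rw [show m = fun _ => 1 from funext hm]
          exact common_le_four ha hc hred hco (Or.inl h3) hI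
        · refine common_three ha0 hc hred hco hI h3 ?_
          have h4 := nuG_eq ha0 G
          have h5 : (nuG a G : ℝ) ≤ 2 * el a G := by exact_mod_cast hm
          have hE : (0 : ℝ) < el a G := by exact_mod_cast el_pos ha0 G
          have h6 : (PP a : ℝ) * nuG a G ≤ PP a * (2 * el a G) :=
            mul_le_mul_of_nonneg_left h5 (Nat.cast_nonneg _)
          have h7 : (el a G : ℝ) * nuA a G ≤ el a G * (2 * PP a) := by
            rw [← h4]
            linarith
          have h8 : (nuA a G : ℝ) ≤ 2 * PP a := le_of_mul_le_mul_left h7 hE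
          exact_mod_cast h8
      rcases hn with h3 | ⟨hn, htri⟩
      · exact h123 h3
      · subst hn
        by_cases h3 : Module.finrank ℝ G ≤ 3
        · exact h123 h3
        · have h1 := Submodule.finrank_le G
          rw [Module.finrank_fintype_fun_eq_card, Fintype.card_fin] at h1
          have htop : G = ⊤ := by
            refine Submodule.eq_top_of_finrank_eq ?_
            rw [Module.finrank_fintype_fun_eq_card, Fintype.card_fin]
            omega
          subst htop
          refine common_top4 ha hc hred hco (fun i j l h1 h2 h3 => ?_) hI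
          have h4 : (((1 : ℚ) / a l : ℚ) : ℝ) ≤ (((1 : ℚ) / a i + 1 / a j : ℚ) : ℝ) :=
            Rat.cast_le.2 (htri i j l h1 h2 h3)
          push_cast at h4
          exact h4
    · refine common_pencil ha0 hc hred hL hm (fun h => ?_) hI
      have h1 := hmn h
      have hP : (0 : ℚ) < PP a := by exact_mod_cast PP_pos ha0
      have h2 := mul_le_mul_of_nonneg_left h1 hP.le
      have h3 : ((∑ i, PP a / a i : ℕ) : ℚ) = PP a * ∑ i, (1 : ℚ) / a i := by
        push_cast
        rw [Finset.mul_sum]
        refine Finset.sum_congr rfl fun i _ => ?_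
        rw [Nat.cast_div (PP_div i) (by exact_mod_cast (ha0 i).ne')]
        ring
      have h4 : ((m h * (PP a + ∑ i, PP a / a i) : ℕ) : ℚ) ≤ ((PP a * ∑ h', m h' : ℕ) : ℚ) := by
        rw [Nat.cast_mul, Nat.cast_add, h3, Nat.cast_mul, Nat.cast_sum]
        calc (m h : ℚ) * (PP a + PP a * ∑ i, (1 : ℚ) / a i) =
            PP a * ((m h : ℚ) * (1 + ∑ i, (1 : ℚ) / a i)) := by ring
          _ ≤ _ := h2
      exact_mod_cast h4

end Pool.Agent.Results.MP_6163c8_ag.RealDiagonalForms
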