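import Pool.Agent.T6.H16.TW.Ex

/-!
# The local strong monodromy conjecture for compositions with few monomials

Let `f(x) = Φ(x, g_1(x), …, g_k(x))` with `g_i(x) = q_i(x, g_1(x), …, g_{i-1}(x))` be a germ at the
origin of `ℂ ^ N` such that the exponents of

  `Φ(x, z) + ∑_i y_i (z_i - q_i(x, z))`

in the variables `x, y, z` are affinely independent (possibly up to terms of higher order). There is
NO condition on the coefficients: all nonzero coefficients are allowed. Then
`b_f(s) (s - k) Z_f(s)` is a polynomial, where `b_f` is the local Bernstein-Sato polynomial and `Z_f`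
is the local topological zeta function of `f`: every pole `s0 ≠ k` of `Z_f` (the poles are known to be
negative rational numbers) is a root of `b_f`, of at least the same order. For example

  `f = γ (α_1 x_1 ^ A_1 + ⋯ + α_m x_m ^ A_m) ^ c + δ_1 x_{m+1} ^ D_1 + ⋯ + δ_n x_{m+n} ^ D_n`

for all exponents `A_i, D_j ≥ 1`, `c ≥ 2` and all nonzero coefficients, such as
`(x_1 ^ 2 + x_2 ^ 3) ^ 5 + x_3 ^ 7`. These `f` are in general degenerate for their Newton polyhedra in all
coordinates. The same holds for the restrictions `f` of a polynomial `G_0` to a smooth germ of a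
complete intersection `G_1 = ⋯ = G_k = 0` if the exponents of `G_0 + ∑ y_i G_i` are affinely
independent, and more generally for all germs `f` such that `f + ∑ y_i z_i` becomes a polynomial
with affinely independent exponents plus terms of higher order in suitable coordinates.

The starting results contain the same statement for generic coefficients
(`MP_6163c8_ag.GenericCompleteIntersections`, where the exponents are arbitrary) and the case
`k = 0` for all nonzero coefficients (`MP_6163c8_ag.SparseHigherOrder`); both are used here: the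
functional equation of `f + ∑ y_i z_i` from the first, and the second one for this polynomial.
-/

set_option autoImplicit false

namespace Pool.Agent.Results.MP_6163c8_ag.SparseTowersLocal

open Pool.Agent.W425.SM Pool.Agent.W425.SH Pool.Agent.W425.SL
open Pool.Agent.Y229.RE (unstab)
open Pool.Agent.Y229.PS (Becomes IsFormalBFunction)
open Pool.Agent.T6.H16.TW

/-- **The local strong monodromy conjecture, with multiplicities, for compositions with few
monomials.**

Notation. `IsFormalBFunction f b`: `b(s) f ^ s = P(s) f ^ (s + 1)` for a differential operator `P(s)`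
with formal power series coefficients at the origin; the local Bernstein-Sato polynomial of `f` is
one of these `b`. `sparse v a = ∑_j a_j X ^ (v j)`. `Higher v h`: there is a weight `ρ` with real values
with `ρ(v j) = 1` for all `j` and `ρ(w) > 1` for the exponents `w` of `h`. `Above v h`: the exponents of
`h` lie in the Newton polyhedron of the `v j` and not on its compact faces. `R` is any smooth fan with
support the positive orthant on which the ideal `(X ^ (v j))_j` becomes principal, and
`Z = topZetaSparseLocal v R` is the local topological zeta function of `∑_j a_j X ^ (v j) + h` computed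
on `X_R`. `Z_f = unstab k 1 Z`, that is
`1 - Z_f(s) = (1 - Z(s - k)) s (s - k + 1) / ((s - k) (s + 1))`, is the local topological zeta function
of the germ `f`, if `Z` is the one of `f + ∑_{i ≤ k} y_i z_i`.

(1) The general case. `Becomes f k g`: `f(x) + ∑_{i ≤ k} y_i z_i` becomes `g`, up to a unit factor, in
suitable formal coordinates at the origin.

(2) Functions on smooth complete intersections. `G_0 = f + ∑_i q_i G_i`, where the matrix
`(∂ G_i / ∂ z_j (0))` is invertible and `G_0` has no linear terms in the `z_j`;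
`cayG G = G_0(x, z) + ∑ y_i G_i(x, z)`.

(3) Towers. `Tri q`: `q_i` involves only `x` and the `z_j` with `j < i`; `sb g P = P(x, g(x))`, so that
`g_i(x) = q_i(x, g(x))` and `f(x) = Φ(x, g(x))`; `towG Φ q = (Φ, z_1 - q_1, …, z_k - q_k)`. `Φ` has no
linear terms in the `z_j`.

(4) An explicit family. `fEx A D c α δ γ = γ (∑_i α_i x_i ^ A_i) ^ c + ∑_j δ_j x_{m+j} ^ D_j`, and
`vEx A D c` are the exponents of `γ z ^ c + ∑_j δ_j x_{m+j} ^ D_j + y (z - ∑_i α_i x_i ^ A_i)`. -/
theorem result :
    (∀ {N k r : ℕ}, 1 ≤ r → ∀ (v : Fin r → Fin (N + (k + k)) → ℕ) (a : Fin r → ℂ)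
      (h : MvPolynomial (Fin (N + (k + k))) ℂ),
      AffineIndependent ℚ (fun j => (fun i => (v j i : ℚ) : Fin (N + (k + k)) → ℚ)) →
      (∀ j, v j ≠ 0) → (∀ j, a j ≠ 0) → (h = 0 ∨ Higher v h) → Above v h →
      ∀ f : MvPowerSeries (Fin N) ℂ, f ≠ 0 → MvPowerSeries.constantCoeff f = 0 →
        Becomes f k (sparse v a + h) → ∀ b : Polynomial ℂ, IsFormalBFunction f b →
        ∀ R : SmoothFan (N + (k + k)), Principal v R →
          ∃ P : Polynomial ℂ, algebraMap (Polynomial ℂ) (RatFunc ℂ)
            (b * (Polynomial.X - Polynomial.C (k : ℂ))) * unstab k 1 (topZetaSparseLocal v R) =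
              algebraMap (Polynomial ℂ) (RatFunc ℂ) P) ∧
    (∀ {N k r : ℕ}, 1 ≤ r → ∀ G : Fin (k + 1) → MvPolynomial (Fin (N + k)) ℂ,
      (∀ i, MvPolynomial.constantCoeff (G i) = 0) →
      (Matrix.of fun i j : Fin k => MvPolynomial.coeff (Finsupp.single (Fin.natAdd N j) 1)
        (G i.succ)).det ≠ 0 →
      (∀ j : Fin k, MvPolynomial.coeff (Finsupp.single (Fin.natAdd N j) 1) (G 0) = 0) →
      ∀ f : MvPowerSeries (Fin N) ℂ, f ≠ 0 → ∀ q : Fin k → MvPowerSeries (Fin (N + k)) ℂ,
      (G 0 : MvPowerSeries (Fin (N + k)) ℂ) = MvPowerSeries.rename (Fin.castAdd k) f +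
        ∑ i, q i * (G i.succ : MvPowerSeries (Fin (N + k)) ℂ) →
      ∀ (v : Fin r → Fin (N + (k + k)) → ℕ) (a : Fin r → ℂ)
      (h : MvPolynomial (Fin (N + (k + k))) ℂ),
      AffineIndependent ℚ (fun j => (fun i => (v j i : ℚ) : Fin (N + (k + k)) → ℚ)) →
      (∀ j, v j ≠ 0) → (∀ j, a j ≠ 0) → (h = 0 ∨ Higher v h) → Above v h →
      cayG G = sparse v a + h → ∀ b : Polynomial ℂ, IsFormalBFunction f b →
        ∀ R : SmoothFan (N + (k + k)), Principal v R →
          ∃ P : Polynomial ℂ, algebraMap (Polynomial ℂ) (RatFunc ℂ)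
            (b * (Polynomial.X - Polynomial.C (k : ℂ))) * unstab k 1 (topZetaSparseLocal v R) =
              algebraMap (Polynomial ℂ) (RatFunc ℂ) P) ∧
    (∀ {N k r : ℕ}, 1 ≤ r → ∀ (Φ : MvPolynomial (Fin (N + k)) ℂ)
      (q : Fin k → MvPolynomial (Fin (N + k)) ℂ), MvPolynomial.constantCoeff Φ = 0 → Tri q →
      (∀ i, MvPolynomial.constantCoeff (q i) = 0) →
      (∀ j : Fin k, MvPolynomial.coeff (Finsupp.single (Fin.natAdd N j) 1) Φ = 0) →
      ∀ g : Fin k → MvPolynomial (Fin N) ℂ, (∀ i, g i = sb g (q i)) →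
      ∀ f : MvPolynomial (Fin N) ℂ, f = sb g Φ → f ≠ 0 →
      ∀ (v : Fin r → Fin (N + (k + k)) → ℕ) (a : Fin r → ℂ)
      (h : MvPolynomial (Fin (N + (k + k))) ℂ),
      AffineIndependent ℚ (fun j => (fun i => (v j i : ℚ) : Fin (N + (k + k)) → ℚ)) →
      (∀ j, v j ≠ 0) → (∀ j, a j ≠ 0) → (h = 0 ∨ Higher v h) → Above v h →
      cayG (towG Φ q) = sparse v a + h →
      ∀ b : Polynomial ℂ, IsFormalBFunction (f : MvPowerSeries (Fin N) ℂ) b →
        ∀ R : SmoothFan (N + (k + k)), Principal v R →
          ∃ P : Polynomial ℂ, algebraMap (Polynomial ℂ) (RatFunc ℂ)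
            (b * (Polynomial.X - Polynomial.C (k : ℂ))) * unstab k 1 (topZetaSparseLocal v R) =
              algebraMap (Polynomial ℂ) (RatFunc ℂ) P) ∧
    (∀ {m n : ℕ}, 0 < m + n → ∀ (A : Fin m → ℕ) (D : Fin n → ℕ) (c : ℕ) (α : Fin m → ℂ)
      (δ : Fin n → ℂ) (γ : ℂ), (∀ i, A i ≠ 0) → (∀ j, D j ≠ 0) → 2 ≤ c →
      (∀ i, α i ≠ 0) → (∀ j, δ j ≠ 0) → γ ≠ 0 → ∀ b : Polynomial ℂ,
      IsFormalBFunction (fEx A D c α δ γ : MvPowerSeries (Fin (m + n)) ℂ) b →
      ∀ R : SmoothFan ((m + n) + (1 + 1)), Principal (vEx A D c) R →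
        ∃ P : Polynomial ℂ, algebraMap (Polynomial ℂ) (RatFunc ℂ)
          (b * (Polynomial.X - Polynomial.C 1)) * unstab 1 1 (topZetaSparseLocal (vEx A D c) R) =
            algebraMap (Polynomial ℂ) (RatFunc ℂ) P) :=
  ⟨fun hr v a h hv hv0 ha h1 h2 f hf0 hf hB b hb R hR =>
      sparse_strong hr v a h hv hv0 ha h1 h2 f hf0 hf hB b hb R hR,
    fun hr G hG0 hdet hlin f hf0 q hF v a h hv hv0 ha h1 h2 hG b hb R hR =>
      ci_sparse hr G hG0 hdet hlin f hf0 q hF v a h hv hv0 ha h1 h2 hG b hb R hR,
    fun hr Φ q hΦ0 hq hq0 hlin g hg f hf hf0 v a h hv hv0 ha h1 h2 hG b hb R hR =>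
      tower_sparse hr Φ q hΦ0 hq hq0 hlin g hg f hf hf0 v a h hv hv0 ha h1 h2 hG b hb R hR,
    fun hmn A D c α δ γ hA hD hc hα hδ hγ b hb R hR =>
      ex_strong hmn A D c α δ γ hA hD hc hα hδ hγ b hb R hR⟩

end Pool.Agent.Results.MP_6163c8_ag.SparseTowersLocal
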