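import Pool.Agent.T6.H56.TSG.Asm
import Pool.Agent.T6.H56.TSG.PRO
import Pool.Agent.T6.H56.TSG.POW
import Pool.Agent.T6.H56.TSG.ISO
import Pool.Agent.T6.H56.TSG.UNI
import Pool.Agent.T6.H56.TSG.RED
import Pool.Agent.Y230.TL.A
import Pool.Agent.Y230.TL.U
import Pool.Agent.Y64.TL.ExpB
import Pool.Agent.Y475.TL.L
import Pool.Agent.Y448.TL.J

/-!
# The strong monodromy conjecture at the origin for sums, products and powers in disjoint variables

Let `f` be a germ at the origin with the numerical data `(N_i, ν_i)` of an embedded resolution, and let
`Z^(e)(s) = ∑_S χ(E_S° ∩ h⁻¹(0)) ∏_{i ∈ S} 1 / (N_i s + ν_i)`, the sum over all `S ≠ ∅` such that `e` divides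
all `N_i`, `i ∈ S`, be its local topological zeta functions (Denef and Loeser); `Z^(1)` is the usual one,
the functions `Z^(e)` with `e ≥ 2` are the twisted ones. Let `b` be the local Bernstein-Sato polynomial
and `b = (s + 1) q`.

We prove for all germs of hypersurfaces in the class `RO (IdL n) Holds`:

* every pole of `Z^(1)` is a root of `b`;
* every pole of `(s + 1) Z^(1)` and every pole of `Z^(e)`, `e ≥ 2`, is a root of `q`.

The class contains

* all germs for which this is true (`Holds`);
* the plane curves `g = 0`, `g(0) = 0`, `g` an arbitrary polynomial (not necessarily reduced), with at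
  least two branches at the origin (`Reducible`), or such that the functions `(s + 1) Z^(1)` and `Z^(e)`,
  `e ≥ 2`, have no pole at `-1`, which is well known if there is only one branch (`LocalZetaE` is the
  computation of the functions `Z^(e)` by blowing up points);
* the weighted homogeneous polynomials with an isolated critical point;
* the linear forms `∑ y_j f_j(x)` over all ideals `(f_j)` in the class `IdL n` (below),

and it is closed under

* **sums `f(x) + g(z)` of any two members of the class**, in disjoint sets of variables, and more
  generally `f + g + c f g`, `c ∈ ℂ`: the functions `Z^(e)` of the sum are given by the Thom-Sebastiani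
  formula (`sumZ`), in which *all* the functions `Z^(i)` of `f` and `Z^(j)` of `g` occur;
* products `f(x) g(z)` in disjoint sets of variables, powers `f ^ a`, multiplication with polynomials
  `U`, `U(0) ≠ 0`, renaming, adding and dropping variables,

in any order and number. So the strong monodromy conjecture, in this form, passes from `f` and `g` to
`f(x) + g(z)`, `f + g + c f g`, `f(x) g(z)`, `f ^ a`. The class is closed under read-once formulas at all points: if `A(x)`, `B(z)` are
polynomials such that the germs of `A - A(p)` at `p` and of `B - B(q)` at `q` are in the class, then the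
same holds for the germs of `A + B` and `A B` at `(p, q)`, and of `A ^ k` at `p`. For example, `∑_i g_i(x_i, y_i)`, `(g_1 + g_2) ^ a g_3 + g_4 ^ c g_5`, and so on,
where the `g_i` are arbitrary plane curves in separate sets of variables, and `(1 + F) ^ k - 1` for all
these `F`. The starting results and `WeightedConesLocal` contain the sums `∑ y_j f_j(x) + g(z)` only.

The ideals: `IdL 0` is the class of ideals of `WeightedConesLocal` (all ideals of `ℂ[x, y]`,
determinantal ideals, weighted cones, …, closed under several operations; the atoms are listed again
in `StrongS`); `IdL (n + 1)` is obtained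
in the same way if also the hypersurfaces in `RO (IdL n) Holds` are allowed: for instance the ideals
generated by hypersurfaces `F_1(x_1), …, F_r(x_r)` in separate sets of variables, the hypersurfaces
`∑ y_j f_j(x) + F(z)` and `h(x) ∏_t (∑_j y_{t,j} f_{t,j}(x)) ^ a_t`. For all these ideals the poles of the
local topological zeta function are roots of the local Bernstein-Sato polynomial of the ideal (Budur,
Mustață, Saito).

The main step of the proof (`rf_kap`): call `α` a reduced forced root of `f` at a point `p`, if
`B(p, α) = 0` for all equations `(s + 1) B(x, s) f ^ s = P(s) f ^ (s + 1)` with polynomials `B(x, s)`. If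
`α`, `β` are reduced forced roots of `f` at `p` and of `g` at `q`, where `f, g ≠ 0` are arbitrary, then
`α + β` is a reduced forced root of `f(x) + g(z) + c f(x) g(z)` at `(p, q)`. The reduced forced roots
are the roots of the reduced local Bernstein-Sato polynomial (`exists_red`), so the sums of these
roots for `f` and `g` are such roots for `f + g + c f g` (`root_sum`); M. Saito proved this up to
integers, and for weighted homogeneous `g`. Moreover `-1` is a reduced forced root if
the germ is a product of two relatively prime power series which vanish at the point.
-/

set_option autoImplicit false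

namespace Pool.Agent.Results.MP_6163c8_ag.SumsProductsPowersLocal

open MvPolynomial Pool.Agent.W574.RO Pool.Agent.H628R4.TP Pool.Agent.Y229
  Pool.Agent.T6.H56.TSG

/-- **The strong monodromy conjecture at the origin for sums, products and powers in disjoint
variables, for all twisted topological zeta functions.**

(1) Let the germ of the hypersurface `F` be in the class `RO (IdL n) Holds`, with the local topological zeta
functions `Z e = Z^(e)`, `e ≥ 1`; so it is obtained by sums `f(x) + g(z)` (and `f + g + c f g`), products
and powers in disjoint sets of variables and multiplication with units, from all the germs for which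
the result is true (`Holds`), plane curves, linear forms `∑ y_j f_j(x)` over ideals, and weighted
homogeneous polynomials with an isolated critical point. Let
`b` satisfy a functional equation `b(s) F ^ s = P(s) F ^ (s + 1)`, where `P(s)` is a differential operator
with formal power series coefficients, for example the local Bernstein-Sato polynomial. Then `b` is
zero at every pole of `Z 1`; moreover `b = (s + 1) q`, and `q` is zero at every pole of `(s + 1) Z 1` and
at every pole of `Z e`, `e ≥ 2`.

(2) Let the ideal with the generators `A` be in the class `IdL n`, with the local topological zeta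
function `Z`, and let `b` satisfy a local functional equation of these generators (`IsLocalBI`), for
example the local Bernstein-Sato polynomial of the ideal (Budur, Mustață, Saito). Then `b(s₀) = 0` for
every pole `s₀` of `Z`. -/
theorem result (n : ℕ) :
    (∀ (σ : Type) (F : MvPolynomial σ ℂ) (Z : ℕ → RatFunc ℂ), RO (IdL n) Holds σ F Z →
      ∀ b : Polynomial ℂ, IsLocalBFunction F b →
      (∀ s₀ : ℂ, (Z 1).denom.eval s₀ = 0 → b.eval s₀ = 0) ∧
      ∃ q : Polynomial ℂ, b = (Polynomial.X + 1) * q ∧
        (∀ s₀ : ℂ, ((RatFunc.X + 1) * Z 1).denom.eval s₀ = 0 → q.eval s₀ = 0) ∧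
        ∀ e, 2 ≤ e → ∀ s₀ : ℂ, (Z e).denom.eval s₀ = 0 → q.eval s₀ = 0) ∧
    ∀ (A : Fam) (Z : RatFunc ℂ), IdL n A Z → ∀ b : Polynomial ℂ, IsLocalBI A.f b →
      ∀ s₀ : ℂ, Z.denom.eval s₀ = 0 → b.eval s₀ = 0 := by
  have O : Ops := ⟨Pool.Agent.Y448.TL.tJ Pool.Agent.Y230.TL.tA Pool.Agent.Y64.TL.tB,
    Pool.Agent.Y230.TL.tU Pool.Agent.Y64.TL.tB, Pool.Agent.Y475.TL.tL, pro, pow_, iso, uni, red⟩
  exact ⟨fun σ F Z h b hb => ro_strong O n σ F Z h b hb,
    fun A Z h b hb s₀ hs => idL_strong O n A Z h b hb s₀ hs⟩

end Pool.Agent.Results.MP_6163c8_ag.SumsProductsPowersLocal
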