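import Pool.Agent.T6.H26.LCMain
import Pool.Agent.Y230.TL.A
import Pool.Agent.Y230.TL.U
import Pool.Agent.Y64.TL.ExpB
import Pool.Agent.Y475.TL.L
import Pool.Agent.Y448.TL.J

/-!
# The strong monodromy conjecture at the origin for weighted cones and for sums of determinantal forms

We prove: every pole of the local topological zeta function at the origin is a root of the local
Bernstein-Sato polynomial, for the germs of hypersurfaces and of ideals in the least classes with the
following properties.

* *Determinantal germs.* The classes contain the products of ideals of minors of a generic or
  symmetric matrix of variables (of Pfaffians of a skew symmetric matrix), the products of ideals of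
  the maximal minors of Hankel matrices (the cones over the secant varieties of the rational normal
  curve) (`DetL`), and the germs which were known before (`StrongL`): all ideals of `ℂ[x, y]`, monomial
  ideals `(x ^ m)`, products of linear ideals, ideals with Rees divisors, polynomials with very general
  coefficients at the vertices of the Newton polyhedron, and so on.
* *Operations.* The classes are closed under sums and products in disjoint sets of variables,
  `∑ y_j f_j(x)`, Thom-Sebastiani sums `∑ y_j f_j(x) + g(z)`, products of powers of forms
  `h(x) ∏_t (∑_j y_{t,j} f_{t,j}(x)) ^ a_t`, powers, and dropping variables (`TQ`).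
* *Weighted cones* (`WCone`). Let `f_1, …, f_r` be weighted homogeneous of the same degree `d > 0` for
  weights `w_i ≥ 0` which are not all zero, such that the Jacobian determinant of the variables of weight
  zero and of some of the `f_j` is not zero. If the germs of the ideal `(f_j)` on hyperplanes
  transversal to the orbits of the points `a ≠ 0`, whose coordinates of weight zero are zero, are in
  the class (and tame, if the stabiliser of `a` is not trivial), then the germ of `(f_j)` at the origin
  is in the class. The operations and the cones may be nested (`TW`).

So for instance the conjecture holds for `F = ∑_j y_j f_j(x) + g(z)`, if `g` is a plane curve (with at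
most a simple pole at `-1`), and the `f_j` are forms of the same degree in `x_0, x_1` with coefficients in
`ℂ[x_2]` and `f_1, f_2, x_2` are algebraically independent (the weights `1, 1, 0`; the transversal germs are
ideals in two variables); or if the `f_j` are the products of minors of given sizes of a matrix of
variables. No point `a` with a trivial stabiliser needs the condition on tameness (`tame_of_le_one`).

The proof. The new exceptional divisor of the weighted blow-up gives the candidate pole
`-(∑ w_i) / d`; it is a root of the Bernstein-Sato polynomial because of the condition on the Jacobian
determinant (`wrootL`): the homogeneous component of degree zero of the functional equation, applied to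
polynomials, contradicts this condition. The other poles are poles `s` of the zeta functions of the
germs at `a ≠ 0`; by the restriction of functional equations to transversal hyperplanes (`sf_slice`)
`B(c • a, s) = 0` for all `c ≠ 0` and all functional equations `B(x, s) f ^ s = …`, so that
`B(0, s) = 0` (`sf_orbit`). So the statement that every pole `s` of `Z` satisfies `B(0, s) = 0` for all
functional equations is preserved by all the operations.
-/

set_option autoImplicit false

namespace Pool.Agent.Results.MP_6163c8_ag.WeightedConesLocal

open MvPolynomial Pool.Agent.W574.SM Pool.Agent.W574.RO Pool.Agent.H628R4.TP Pool.Agent.TH192.DT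
  Pool.Agent.Y229 Pool.Agent.Y230.TL Pool.Agent.T6.H26

/-- **The strong monodromy conjecture at the origin: weighted cones, determinantal germs, and
Thom-Sebastiani sums.** Let `TW StrongD StrongHyp k c A Z` be the classes of germs at the origin of
ideals (`c = false`) and of hypersurfaces (`c = true`), given by generators `A`, with their local
topological zeta functions `Z`, which are obtained from the germs in `StrongD` and the hypersurfaces
in `StrongHyp` by the operations of `TQ` (sums and products in disjoint sets of variables,
`∑ y_j f_j(x)`, `∑ y_j f_j(x) + g(z)`, `h(x) ∏_t (∑_j y_{t,j} f_{t,j}(x)) ^ a_t`, powers, dropping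
variables), and by weighted cones, which are nested at most `k` times.

(1) Let the hypersurface `F` be in the class, and let `b` satisfy a functional equation
`b(s) F ^ s = P(s) F ^ (s + 1)`, where `P(s)` is a differential operator with formal power series
coefficients, for example the local Bernstein-Sato polynomial. Then `b(s₀) = 0` for every pole `s₀` of
`Z`.

(2) Let the ideal with the generators `A` be in the class, and let `b` satisfy a local functional
equation of these generators (`IsLocalBI`), for example the local Bernstein-Sato polynomial of the ideal
(Budur, Mustață, Saito). Then `b(s₀) = 0` for every pole `s₀` of `Z`. -/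
theorem result :
    (∀ (k : ℕ) (c : Bool) (σ : Type) (F : MvPolynomial σ ℂ) (Z : RatFunc ℂ),
      TW StrongD StrongHyp k c ⟨σ, Fin 1, fun _ => F⟩ Z →
      ∀ b : Polynomial ℂ, IsLocalBFunction F b →
      ∀ s₀ : ℂ, Z.denom.eval s₀ = 0 → b.eval s₀ = 0) ∧
    (∀ (k : ℕ) (c : Bool) (A : Fam) (Z : RatFunc ℂ), TW StrongD StrongHyp k c A Z →
      ∀ b : Polynomial ℂ, IsLocalBI A.f b →
      ∀ s₀ : ℂ, Z.denom.eval s₀ = 0 → b.eval s₀ = 0) := by
  classical
  have hJ : StJ := Pool.Agent.Y448.TL.tJ tA Pool.Agent.Y64.TL.tB
  have hU : StU := tU Pool.Agent.Y64.TL.tB
  have hL : StL := Pool.Agent.Y475.TL.tL
  exact ⟨fun k c σ F Z h b hb s₀ hs => tw_strong hJ hU hL k c F Z h b hb s₀ hs,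
    fun k c A Z h b hb s₀ hs => tw_strong_ideal hJ hU hL k c A Z h b hb s₀ hs⟩

end Pool.Agent.Results.MP_6163c8_ag.WeightedConesLocal
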